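import Pool.Agent.H556R2.Complete

/-!
# The Borel complexity of `P = ZPP`

Relative to an oracle `A`, a subset of the set of all bit strings, the truth of `P = ZPP` depends
on `A`. The theorem determines how complicated this dependence is: the set of the `A` with
`P^A = ZPP^A` is `Π⁰₃`-complete for continuous reductions in the space of all oracles.
-/

namespace Pool.Agent.Results.MP_34c247_lc.BorelComplexity

open H556R2

theorem result : Pi03Complete {A : Oracle | ClassP A = ClassZPP A} := P_eq_ZPP_complete

end Pool.Agent.Results.MP_34c247_lc.BorelComplexity
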