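import Pool.Agent.TH683.RB.Changed

/-!
# How many strings of a random oracle have to be changed to separate `P` and `ZPP`?

For almost every oracle `O` the classes `P` and `ZPP = RP ∩ coRP` relative to `O` are equal. Here
an adversary who knows `O` changes, for all large `n`, at most `g n` of the strings of length at
most `n`; the result is the oracle `A`.

* If `g` is polynomially bounded, then, for almost every `O`, still `P = ZPP` relative to all these
  `A`, however the changes depend on `O`. If `g` is not polynomially bounded, then, for almost every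
  `O`, there is such an `A` with `P ≠ ZPP`.
* If `g n > 2 ^ (n ^ ε)` for some `ε > 0` and all large `n`, then every oracle `O` can be changed
  such that even `EXP = ZPP ≠ P`; otherwise, for almost every `O`, not even `NP ⊆ ZPP` can be
  achieved.

(Polynomially bounded means here that for some `c` and all large `n` there is `m ≥ n` with
`g m ≤ n ^ c`. If `g` is nondecreasing, this says that `g n ≤ n ^ c` for some `c` and all large `n`;
in general it is the right condition, since the number of changed strings of length at most `n` is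
nondecreasing in `n`.)
-/

set_option autoImplicit false

namespace Pool.Agent.Results.MP_34c247_lc.ChangedStrings

open Pool.Agent.NPC Pool.Agent.H620R2.Gauge Pool.Agent.TH683.RB
open Pool.Agent.H628R3.RO (randomOracle)
open Pool.Agent.W900.CH (Close)
open MeasureTheory

theorem result (g : ℕ → ℝ) :
    ((∃ c : ℕ, ∀ᶠ n : ℕ in Filter.atTop, ∃ m ≥ n, g m ≤ (n : ℝ) ^ c) →
      ∀ᵐ O ∂randomOracle, ∀ A : Oracle, Close g O A →
        ∀ L, IsRP A L ∧ IsRP A Lᶜ ↔ IsP A L) ∧
    ((¬ ∃ c : ℕ, ∀ᶠ n : ℕ in Filter.atTop, ∃ m ≥ n, g m ≤ (n : ℝ) ^ c) →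
      ∀ᵐ O ∂randomOracle, ∃ A : Oracle, Close g O A ∧
        ∃ L, (IsRP A L ∧ IsRP A Lᶜ) ∧ ¬ IsP A L) ∧
    ((∀ ε : ℝ, 0 < ε → ∃ᶠ n : ℕ in Filter.atTop, g n ≤ 2 ^ (n : ℝ) ^ ε) →
      ∀ᵐ O ∂randomOracle, ∀ A : Oracle, Close g O A →
        ∃ L, IsNP A L ∧ ¬ (IsRP A L ∧ IsRP A Lᶜ)) ∧
    ((¬ ∀ ε : ℝ, 0 < ε → ∃ᶠ n : ℕ in Filter.atTop, g n ≤ 2 ^ (n : ℝ) ^ ε) →
      ∀ O : Oracle, ∃ A : Oracle, Close g O A ∧
        (∀ L, IsEXP A L → IsRP A L ∧ IsRP A Lᶜ) ∧
          ∃ L, (IsRP A L ∧ IsRP A Lᶜ) ∧ ¬ IsP A L) :=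
  ⟨few_zpp, many_zpp, low_zpp, high_zpp⟩

end Pool.Agent.Results.MP_34c247_lc.ChangedStrings
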