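import Pool.Agent.H556R2.SComplete

set_option autoImplicit false

/-!
# Zero-error linear time and deterministic time with a fixed exponent

If `P = ZPP` then every language which is decided with zero error in linear time is decided
deterministically in time `O(n ^ c)` for some `c`, which may depend on the language. The uniform
version asks for one exponent `c` for all these languages. Relative to an oracle `A` the uniform
version has exactly the Borel complexity `Σ⁰₄`, one level above `P = ZPP` itself (`Π⁰₃`).

The construction of the oracles is due to helper556 of an earlier round (`Pool.Agent.H556R2`).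
-/

namespace Pool.Agent.Results.MP_34c247_lc.FixedExponent

open H556R2 TopologicalSpace

/-- (1) The set of the oracles `A` such that, for some `c`, relative to `A` all languages which lie
in `RTIME(n)` together with their complements are in `DTIME(n ^ c)`, is `Σ⁰₄`-complete. (2) There is
one continuous reduction for this and for stronger properties: every `Σ⁰₄` subset `D` of a
zero-dimensional second countable space has a continuous map `f` to the oracles such that, for
`x ∈ D`, some `DTIME(n ^ c)` contains `RTIME(n)` and `NTIME(n) ∩ coNTIME(n)` relative to `f x`, and,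
for `x ∉ D`, no `DTIME(n ^ c)` contains `ZPTIME(n)`. -/
theorem result :
    Sigma04Complete {A : Oracle | ∃ c, ClassZPTIME1 A ⊆ ClassDTIME c A} ∧
    ∀ (X : Type) [TopologicalSpace X] [SecondCountableTopology X],
      IsTopologicalBasis {s : Set X | IsClopen s} → ∀ D : Set X, IsSigma04 D →
        ∃ f : X → Oracle, Continuous f ∧
          (∀ x ∈ D, ∃ c, ClassRTIME1 (f x) ⊆ ClassDTIME c (f x) ∧
            ClassNTIME1 (f x) ∩ ClassCoNTIME1 (f x) ⊆ ClassDTIME c (f x)) ∧
          ∀ x ∉ D, ∀ c, ¬ ClassZPTIME1 (f x) ⊆ ClassDTIME c (f x) := by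
  classical
  refine ⟨fixed_exponent_ZPP_complete, fun X _ _ hX D hD => ?_⟩
  obtain ⟨P, hP, rfl⟩ := hD
  have hmat : ∀ c, ∃ α : X → ℕ → ℕ → Option ℕ, (∀ i b x, ∀ᶠ y in nhds x, α y i b = α x i b) ∧
      (∀ x ∈ (⋃ m ∈ Finset.range (c + 1), P m)ᶜ, ∃ i, ∀ t, ∃ b, α x i b = some t) ∧
      (∀ x ∉ (⋃ m ∈ Finset.range (c + 1), P m)ᶜ, ∀ i, {b | α x i b ≠ none}.Finite) :=
    fun c => exists_matrix hX (isPi03_accumulate hP c)
  choose α h1 h2 h3 using hmat
  refine ⟨fun x => OS fun c => α c x, continuous_OS fun k i b x => h1 k i b x, ?_, ?_⟩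
  · intro x hx
    obtain ⟨c0, hc0⟩ := Set.mem_iUnion.1 hx
    have hα : ∀ c, c0 ≤ c → ∀ i, {b | α c x i b ≠ none}.Finite := by
      intro c hc i
      refine h3 c x ?_ i
      simp only [Set.mem_compl_iff, Set.mem_iUnion, not_not]
      exact ⟨c0, Finset.mem_range.2 (by omega), hc0⟩
    refine ⟨2 * c0 + 4, OS_linear_RTIME hα, fun L hL => ?_⟩
    obtain ⟨⟨i, i'⟩, hi⟩ := (mem_NTIME1_fam _ _).1 hL
    apply OS_linear hα (e := (.npc, linSM i, linSM i')) (linSM_bd' i i')
    intro y
    exact ⟨decide (y ∈ L), by simp, hi y⟩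
  · intro x hx c
    obtain ⟨i, hi⟩ := h2 c x (by
      simp only [Set.mem_compl_iff, Set.mem_iUnion, not_exists]
      intro m _ hm
      exact hx (Set.mem_iUnion.2 ⟨m, hm⟩))
    exact OS_level hi

end Pool.Agent.Results.MP_34c247_lc.FixedExponent
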