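import Pool.Agent.TH683.GP.Fin

/-!
# How many oracles separate `P` and `ZPP`?

The size of a set of oracles is measured by gauges `f` (Hausdorff measures of arbitrary dimension
functions): `X` is a null set for `f` if it can be covered by cylinders, given by finite sequences
`σ` of bits, such that the sum of `2 ^ (f |σ| - |σ|)` is as small as one likes. For `f = 0` these
are the sets of measure zero.

The oracles with `P ≠ ZPP` are a null set for `f` if and only if for some `C` and all large `N`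
there is `N' ≥ N` with `f N' ≤ (log N) ^ C`. The same holds for every set of oracles between the set
of those with `P ≠ ZPP` and the set of those with `P ≠ BPP`.
-/

set_option autoImplicit false

namespace Pool.Agent.Results.MP_34c247_lc.GaugeThreshold

open Pool.Agent.NPC Pool.Agent.H620R2.Gauge Pool.Agent.TH683.RB Pool.Agent.TH683.GP

theorem result (f : ℕ → ℝ) :
    (Null f {A : Oracle | ∃ L, (IsRP A L ∧ IsRP A Lᶜ) ∧ ¬ IsP A L} ↔
      ∃ C : ℕ, ∀ᶠ N : ℕ in Filter.atTop, ∃ N' ≥ N, f N' ≤ (Real.logb 2 N) ^ C) ∧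
    ∀ X : Set Oracle,
      (∀ A : Oracle, (∃ L, (IsRP A L ∧ IsRP A Lᶜ) ∧ ¬ IsP A L) → A ∈ X) →
      (∀ A ∈ X, ∃ L, IsBPP3 A L ∧ ¬ IsP A L) →
      (Null f X ↔
        ∃ C : ℕ, ∀ᶠ N : ℕ in Filter.atTop, ∃ N' ≥ N, f N' ≤ (Real.logb 2 N) ^ C) :=
  ⟨gauge_zpp f, gauge_zpp_between f⟩

end Pool.Agent.Results.MP_34c247_lc.GaugeThreshold
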